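import Pool.Agent.W759.FD.Defs

namespace Pool.Agent.W750.FD

open Pool.Agent.W759.FD
open MeasureTheory ProbabilityTheory Set Filter
open scoped ENNReal Topology

theorem sg_sign (b : Bool) : IsSign (sg b) := by
  unfold IsSign sg
  cases b <;> simp

theorem sg_not (b : Bool) : sg (!b) = - sg b := by
  unfold sg
  cases b <;> simp

theorem IsSign.mul {x y : ℝ} (hx : IsSign x) (hy : IsSign y) : IsSign (x * y) := by
  rcases hx with rfl | rfl <;> rcases hy with rfl | rfl <;> simp [IsSign]

theorem chsh_sign {x y : ℝ} (hx : IsSign x) (hy : IsSign y) : IsSign (chsh x y) := by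
  unfold chsh
  rcases hx with rfl | rfl <;> rcases hy with rfl | rfl <;> norm_num [IsSign]

theorem blk_sign (m k : ℕ) (h : ℕ → Bool) : IsSign (blk m k h) := by
  unfold blk
  induction (Finset.Ico (k * m) ((k + 1) * m)) using Finset.induction_on with
  | empty => left; simp
  | insert a s ha ih =>
    rw [Finset.prod_insert ha]
    exact IsSign.mul (sg_sign _) ih

theorem sign_abs_le {x : ℝ} (hx : IsSign x) : |x| ≤ 1 := by
  rcases hx with rfl | rfl <;> simp

theorem meas_blk (m k : ℕ) : Measurable (blk m k) := by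
  unfold blk
  apply Finset.measurable_prod
  intro j _
  exact (Measurable.of_discrete (f := sg)).comp (measurable_pi_apply j)

theorem blk_flip_mem (m k j : ℕ) (h : ℕ → Bool) (hj : j ∈ Finset.Ico (k * m) ((k + 1) * m)) :
    blk m k (Function.update h j (!(h j))) = - blk m k h := by
  unfold blk
  rw [← Finset.mul_prod_erase _ _ hj, ← Finset.mul_prod_erase _ (fun i => sg (h i)) hj]
  have h1 : ∏ i ∈ (Finset.Ico (k * m) ((k + 1) * m)).erase j,
      sg (Function.update h j (!(h j)) i) =
      ∏ i ∈ (Finset.Ico (k * m) ((k + 1) * m)).erase j, sg (h i) := by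
    apply Finset.prod_congr rfl
    intro i hi
    rw [Function.update_of_ne (Finset.ne_of_mem_erase hi)]
  rw [h1, Function.update_self, sg_not]
  ring

theorem blk_flip_not_mem (m k j : ℕ) (h : ℕ → Bool)
    (hj : j ∉ Finset.Ico (k * m) ((k + 1) * m)) :
    blk m k (Function.update h j (!(h j))) = blk m k h := by
  unfold blk
  apply Finset.prod_congr rfl
  intro i hi
  rw [Function.update_of_ne]
  rintro rfl
  exact hj hi

theorem meas_flip (j : ℕ) : Measurable (fun h : ℕ → Bool => Function.update h j (!(h j))) := by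
  rw [measurable_pi_iff]
  intro i
  by_cases hi : i = j
  · subst hi
    simp only [Function.update_self]
    exact (Measurable.of_discrete (f := Bool.not)).comp (measurable_pi_apply i)
  · simp only [Function.update_of_ne hi]
    exact measurable_pi_apply i

theorem flip_int (hP0 : P0) (j : ℕ) (Φ : (ℕ → Bool) → ℝ) (hm : Measurable Φ)
    (hodd : ∀ h, Φ (Function.update h j (!(h j))) = - Φ h) : ∫ h, Φ h ∂coins = 0 := by
  have h1 : ∫ h, Φ h ∂coins = ∫ h, Φ (Function.update h j (!(h j))) ∂coins := by
    conv_lhs => rw [← hP0 j]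
    rw [integral_map (meas_flip j).aemeasurable hm.aestronglyMeasurable]
  simp only [hodd, integral_neg] at h1
  linarith

/-- The sign of the constraint. -/
noncomputable def D (m : ℕ) (h : ℕ → Bool) : ℝ :=
  blk m 1 h * blk m 2 h * chsh (blk m 0 h) (blk m 3 h)

theorem D_sign (m : ℕ) (h : ℕ → Bool) : IsSign (D m h) :=
  IsSign.mul (IsSign.mul (blk_sign _ _ _) (blk_sign _ _ _))
    (chsh_sign (blk_sign _ _ _) (blk_sign _ _ _))

theorem meas_D (m : ℕ) : Measurable (D m) := by
  unfold D chsh
  have h0 := meas_blk m 0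
  have h1 := meas_blk m 1
  have h2 := meas_blk m 2
  have h3 := meas_blk m 3
  exact (h1.mul h2).mul (((((measurable_const.add h0).add h3).sub (h0.mul h3)).div_const 2))

theorem integrable_of_sign (Φ : (ℕ → Bool) → ℝ) (hm : Measurable Φ) (hs : ∀ h, |Φ h| ≤ 1) :
    Integrable Φ coins :=
  Integrable.of_bound hm.aestronglyMeasurable 1 (ae_of_all _ (fun h => by
    rw [Real.norm_eq_abs]; exact hs h))

theorem mem_ico_iff (m k j : ℕ) : j ∈ Finset.Ico (k * m) ((k + 1) * m) ↔
    k * m ≤ j ∧ j < (k + 1) * m := Finset.mem_Ico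

/-- Flipping the coordinate `m` changes only the block 1. -/
theorem D_flip_one (m : ℕ) (hm : 0 < m) (h : ℕ → Bool) :
    D m (Function.update h m (!(h m))) = - D m h := by
  unfold D
  rw [blk_flip_mem m 1 m h (by rw [mem_ico_iff]; constructor <;> omega),
    blk_flip_not_mem m 2 m h (by rw [mem_ico_iff]; omega),
    blk_flip_not_mem m 0 m h (by rw [mem_ico_iff]; omega),
    blk_flip_not_mem m 3 m h (by rw [mem_ico_iff]; omega)]
  ring

theorem int_D (hP0 : P0) (m : ℕ) (hm : 0 < m) : ∫ h, D m h ∂coins = 0 :=
  flip_int hP0 m (D m) (meas_D m) (D_flip_one m hm)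

theorem t6a : P0 → P6a := by
  intro hP0 m hm
  constructor
  have hint : Integrable (fun h => 1 + D m h) coins :=
    (integrable_const (1 : ℝ)).add (integrable_of_sign _ (meas_D m) (fun h => sign_abs_le (D_sign m h)))
  have hnn : 0 ≤ᵐ[coins] (fun h => 1 + D m h) := by
    apply ae_of_all
    intro h
    rcases D_sign m h with e | e <;> simp [e]
  have h1 := ofReal_integral_eq_lintegral_ofReal hint hnn
  have h2 : ∫ h, (1 + D m h) ∂coins = 1 := by
    rw [integral_add (integrable_const _)
      (integrable_of_sign _ (meas_D m) (fun h => sign_abs_le (D_sign m h))), int_D hP0 m hm]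
    simp
  rw [h2, ENNReal.ofReal_one] at h1
  unfold house
  rw [withDensity_apply _ MeasurableSet.univ, Measure.restrict_univ]
  exact h1.symm

theorem t6b : P6b := by
  intro m hm
  unfold house
  have hmeas : Measurable (fun h => ENNReal.ofReal
      (1 + blk m 1 h * blk m 2 h * chsh (blk m 0 h) (blk m 3 h))) :=
    (measurable_const.add (meas_D m)).ennreal_ofReal
  rw [ae_withDensity_iff hmeas]
  apply ae_of_all
  intro h hne
  show blk m 1 h * blk m 2 h = chsh (blk m 0 h) (blk m 3 h)
  have hD : blk m 1 h * blk m 2 h * chsh (blk m 0 h) (blk m 3 h) = 1 := by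
    rcases D_sign m h with e | e
    · exact e
    · exfalso
      apply hne
      have e' : blk m 1 h * blk m 2 h * chsh (blk m 0 h) (blk m 3 h) = -1 := e
      rw [e']
      simp
  rcases chsh_sign (blk_sign m 0 h) (blk_sign m 3 h) with e | e
  · rw [e] at hD ⊢
    linarith
  · rw [e] at hD ⊢
    linarith

theorem int_house (m k : ℕ) (hP0 : P0) (hm : 0 < m) (j : ℕ)
    (hj : j ∈ Finset.Ico (k * m) ((k + 1) * m)) (hk : m ∉ Finset.Ico (k * m) ((k + 1) * m)) :
    ∫ h, blk m k h ∂(house m) = 0 := by
  unfold house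
  have hmeas : Measurable (fun h => ENNReal.ofReal
      (1 + blk m 1 h * blk m 2 h * chsh (blk m 0 h) (blk m 3 h))) :=
    (measurable_const.add (meas_D m)).ennreal_ofReal
  rw [integral_withDensity_eq_integral_toReal_smul hmeas
    (ae_of_all _ (fun h => ENNReal.ofReal_lt_top))]
  have h1 : ∀ h, (ENNReal.ofReal
      (1 + blk m 1 h * blk m 2 h * chsh (blk m 0 h) (blk m 3 h))).toReal • blk m k h =
      blk m k h + D m h * blk m k h := by
    intro h
    rw [ENNReal.toReal_ofReal]
    · rw [smul_eq_mul]
      unfold D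
      ring
    · rcases D_sign m h with e | e
      · have e' : blk m 1 h * blk m 2 h * chsh (blk m 0 h) (blk m 3 h) = 1 := e
        rw [e']; norm_num
      · have e' : blk m 1 h * blk m 2 h * chsh (blk m 0 h) (blk m 3 h) = -1 := e
        rw [e']; norm_num
  simp only [h1]
  have i2 : Integrable (fun h => D m h * blk m k h) coins :=
    integrable_of_sign (fun h => D m h * blk m k h) ((meas_D m).mul (meas_blk m k))
      (fun h => sign_abs_le (IsSign.mul (D_sign m h) (blk_sign m k h)))
  rw [integral_add (integrable_of_sign _ (meas_blk m k) (fun h => sign_abs_le (blk_sign m k h)))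
    i2]
  have h2 : ∫ h, blk m k h ∂coins = 0 :=
    flip_int hP0 j _ (meas_blk m k) (fun h => blk_flip_mem m k j h hj)
  have h3 : ∫ h, D m h * blk m k h ∂coins = 0 := by
    apply flip_int hP0 m (fun h => D m h * blk m k h) ((meas_D m).mul (meas_blk m k))
    intro h
    show D m (Function.update h m (!(h m))) * blk m k (Function.update h m (!(h m))) =
      -(D m h * blk m k h)
    rw [D_flip_one m hm, blk_flip_not_mem m k m h hk]
    ring
  rw [h2, h3, add_zero]

theorem t6d : P0 → P6d := by
  intro hP0 m hm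
  constructor
  · apply int_house m 0 hP0 hm 0
    · rw [mem_ico_iff]; constructor <;> omega
    · rw [mem_ico_iff]; omega
  · apply int_house m 3 hP0 hm (3 * m)
    · rw [mem_ico_iff]; constructor <;> omega
    · rw [mem_ico_iff]; omega

end Pool.Agent.W750.FD
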